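import Pool.Agent.U283.LL.All

/-!
# Global liftings are not compatible with any local lifting

MP_5ae62c_nt, Q1, asks whether for every local field `F`, every quasi-split group `G` and every
representation `ρ` of its L-group there is a map `l : Irr(G(F)) → Irr(GL(n, F))` such that for every
global field `K` with `K_𝔭 = F` and every automorphic representation `π` the `𝔭`-component of the
isobaric global lifting `l_ρ(π)` is `l(π_𝔭)`.  We disprove this, already for `F = 𝔽₂((1/t))`,
`G = GL₂`, `ρ` the identity of `GL₂(ℂ)`, and the single global field `K = 𝔽₂(t)` with `𝔭 = ∞`.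

The local definitions (`CRep`, `Irred`, `Iso`, `Cong`, `Smooth`, `IrrRep`, `upper`, `PSspace`,
`PSinvariant`, `PSirred`, `IsLanglands`, `Unram`), those of `GL₂(𝔸)` and of the adeles (`GA`, `Adele`,
`uni`) and of the field `K0 = 𝔽₂(t)` with its places `P0`, completions `L0 p`, valuations `val0 p`
and inclusions `emb0 p` are in `Pool/Agent/U283/LL/Defs.lean`; the global ones are below.  They
are the standard ones:

* automorphic representations are the irreducible subquotients of the space of automorphic forms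
  (left `GL₂(K)`-invariant, right invariant under an open subgroup, admissible, i.e. generating
  at one place a representation of finite length; Borel and Jacquet, 5.8), cuspidal ones those of
  the space of cusp forms;
* isobaric representations of `GL₂(𝔸)` are the cuspidal ones and the `χ₁ ⊞ χ₂`, the
  irreducible representations with local components `χ₁ ⊞ χ₂`, the Langlands quotient of the
  principal series.  In terms of unnormalised induction the component is the irreducible
  subrepresentation of the principal series of `μ₁ = χ₂|·|^(1/2)`, `μ₂ = χ₁|·|^(-1/2)`, of dimension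
  one if this principal series is reducible.  (Here the order of `χ₁, χ₂` can be chosen
  for all places at once, because `|χ₁ χ₂⁻¹|` is a power of the idele norm.);
* `σ` is a global lifting of `π` if it is isobaric and has the same component as `π` at every place
  at which the component of `π` is unramified.

The proof.  The functions `g ↦ ∑_X (f(g⁻¹ ℓ(X)) - f(g⁻¹ ℓ'(X))) Φ(g⁻¹ X g)`, where `X` runs over the
matrices in `M₂(K)` with given trace and determinant and `ℓ(X), ℓ'(X)` are its two eigenlines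
over `K_∞`, are automorphic forms which generate a Steinberg representation at `∞`.  If `X` has no
eigenvalue in `K` they are cusp forms; this gives the cuspidal `π₂`, with Steinberg component
at `∞`, which is its own lifting.  If `X` runs over the idempotents of rank one, and `Φ` is chosen
at the place `(t)` in the same way, they are Eisenstein series with the eigenvalues of the trivial
representation; this gives `π₁`, which is Steinberg at `∞` and at `(t)` and trivial at all
other places, and whose lifting is the trivial representation.  (`π₁` is one of the constituents of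
the representation induced by `|·|^(1/2), |·|^(-1/2)`; Langlands, On the notion of an automorphic
representation.)  So `l` of the Steinberg representation would be both trivial and Steinberg.
-/

set_option autoImplicit false

open scoped WithZero Matrix

namespace Pool.Agent.Results.MP_5ae62c_nt.NoLocalLifting

open Pool.Agent.U283.LL

noncomputable section

/-- `GL₂(𝔸)`, the restricted product of the `GL₂(K_p)` with respect to the `GL₂(O_p)`. -/
def GAd : Type := ↥(GA val0)

instance : Group GAd := (inferInstance : Group ↥(GA val0))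

/-- The component at `p` of an element of `GL₂(𝔸)`. -/
def comp (g : GAd) (p : P0) : G2 (L0 p) := g.1 p

/-- `g` lies in the factor `GL₂(K_p)` of `GL₂(𝔸)`. -/
def AtPlace (p : P0) (g : GAd) : Prop := ∀ q, q ≠ p → comp g q = 1

/-- `g` lies in the open compact subgroup `∏ Cong_p(n p)`. -/
def InU (n : P0 →₀ ℕ) (g : GAd) : Prop := ∀ p, comp g p ∈ Cong (val0 p) (n p)

/-- The adeles. -/
def Ad : Type := ↥(Adele val0)

instance : AddCommGroup Ad := (inferInstance : AddCommGroup ↥(Adele val0))

/-- The component at `p` of an adele. -/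
def acomp (x : Ad) (p : P0) : L0 p := x.1 p

/-- `(1 x; 0 1)` -/
def unip (x : Ad) : GAd := uni val0 x

/-- The functions on `GL₂(𝔸)`. -/
def Fn : Type := GAd → ℂ

instance : AddCommGroup Fn := (inferInstance : AddCommGroup (GAd → ℂ))

instance : Module ℂ Fn := (inferInstance : Module ℂ (GAd → ℂ))

/-- Right translation. -/
def rt (g : GAd) (φ : Fn) : Fn := fun h => φ (h * g)

/-- `φ` is invariant under left translation by `GL₂(K)`. -/
def LeftInvariant (φ : Fn) : Prop :=
  ∀ γ : G2 K0, ∀ g g' : GAd, (∀ p, comp g' p =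
    Matrix.GeneralLinearGroup.map (emb0 p) γ * comp g p) → φ g' = φ g

/-- The right translates of `φ` by `GL₂(K_p)` span a representation of finite length
(equivalently an admissible one): strictly increasing chains of invariant subspaces have bounded
length. -/
def FiniteLength (p : P0) (φ : Fn) : Prop :=
  ∃ N : ℕ, ∀ (k : ℕ) (W : Fin (k + 1) → Submodule ℂ Fn), StrictMono W →
    (∀ i, (∀ g, AtPlace p g → ∀ ψ ∈ W i, rt g ψ ∈ W i) ∧
      W i ≤ Submodule.span ℂ {ψ | ∃ g, AtPlace p g ∧ rt g φ = ψ}) → k ≤ N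

/-- Automorphic forms (Borel–Jacquet, 5.8): left invariant under `GL₂(K)`, right invariant under an
open subgroup, admissible. -/
def AutomorphicForm (φ : Fn) : Prop :=
  LeftInvariant φ ∧ (∃ n : P0 →₀ ℕ, ∀ u, InU n u → ∀ g, φ (g * u) = φ g) ∧ ∃ p, FiniteLength p φ

/-- The constant term of `φ` vanishes: for every `g` the sum of `φ((1 x; 0 1) g)` over the finite
set `𝔸 / (K + W)` is zero, `W = ∏ 𝔪_p^{n p}` being an open subgroup of `𝔸` under which the
summand is invariant. -/
def Cuspidality (φ : Fn) : Prop :=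
  ∀ g : GAd, ∃ (n : P0 →₀ ℕ) (E : Finset Ad),
    (∀ x w : Ad, (∀ p, val0 p (acomp w p) ≤ WithZero.exp (-(n p : ℤ))) →
      φ (unip (x + w) * g) = φ (unip x * g)) ∧
    (∀ x : Ad, ∃! e, e ∈ E ∧ ∃ k : K0, ∀ p,
      val0 p (acomp x p - acomp e p - emb0 p k) ≤ WithZero.exp (-(n p : ℤ))) ∧
    ∑ e ∈ E, φ (unip e * g) = 0

/-- `π` is a quotient of an invariant space `W` of functions which all have the property `Q`
(the map `T` from `W` to the space of `π` is given as the restriction of a linear map defined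
on all functions). -/
def Subquotient (Q : Fn → Prop) (π : CRep GAd) : Prop :=
  ∃ W : Submodule ℂ Fn, (∀ g, ∀ φ ∈ W, rt g φ ∈ W) ∧ (∀ φ ∈ W, Q φ) ∧
    ∃ T : Fn →ₗ[ℂ] π.V, (∀ x, ∃ φ ∈ W, T φ = x) ∧ ∀ g, ∀ φ ∈ W, T (rt g φ) = π.ρ g (T φ)

/-- Automorphic representations: the irreducible subquotients of the space of automorphic forms. -/
def Automorphic (π : CRep GAd) : Prop := Irred π ∧ Subquotient AutomorphicForm π

/-- Cuspidal automorphic representations: the irreducible subquotients of the space of cusp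
forms. -/
def Cuspidal (π : CRep GAd) : Prop :=
  Irred π ∧ Subquotient (fun φ => AutomorphicForm φ ∧ Cuspidality φ) π

/-- The representation `a` of `H` embeds into the representation `π` of `G`, in such a way that the
elements `g ∈ S` act on it through `f g`. -/
def Embeds {H G : Type} [Group H] [Group G] (f : G → H) (S : Set G) (a : CRep H)
    (π : CRep G) : Prop :=
  ∃ T : a.V →ₗ[ℂ] π.V, Function.Injective T ∧ ∀ g ∈ S, ∀ x, T (a.ρ (f g) x) = π.ρ g (T x)

/-- `a` is the component of `π` at the place `p`. -/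
def Comp (p : P0) (π : CRep GAd) (a : CRep (G2 (L0 p))) : Prop :=
  Embeds (fun g => comp g p) {g | AtPlace p g} a π

/-- Hecke characters, by their local components: smooth, unramified at almost all places, trivial
on `Kˣ`. -/
structure Hecke where
  /-- the local components -/
  χ : ∀ p, (L0 p)ˣ →* ℂˣ
  smooth : ∀ p, ∃ n : ℕ, ∀ u : (L0 p)ˣ, val0 p ((u : L0 p) - 1) ≤ WithZero.exp (-(n : ℤ)) →
    val0 p (u : L0 p) = 1 → χ p u = 1
  unram : {p | ∃ u : (L0 p)ˣ, val0 p (u : L0 p) = 1 ∧ χ p u ≠ 1}.Finite
  glob : ∀ x : K0ˣ, ∏ᶠ p, χ p (Units.map (emb0 p).toMonoidHom x) = 1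

/-- `π` is an irreducible smooth representation with components `χ₁ ⊞ χ₂` (Langlands quotients)
for Hecke characters `χ₁, χ₂`. -/
def IsSum (π : CRep GAd) : Prop :=
  Irred π ∧ (∀ x : π.V, ∃ n : P0 →₀ ℕ, ∀ u, InU n u → π.ρ u x = x) ∧
    ∃ μ₁ μ₂ : Hecke, ∀ p, ∃ a : IrrRep (val0 p), Comp p π a.rep ∧
      IsLanglands (val0 p) (μ₁.χ p) (μ₂.χ p) a.rep

/-- Isobaric automorphic representations: the cuspidal ones and the `χ₁ ⊞ χ₂`. -/
def Isobaric (π : CRep GAd) : Prop := Cuspidal π ∨ IsSum π

/-- `σ` is a global lifting of `π` for `ρ = id`: it is isobaric, and at every place where the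
component of `π` is unramified, `σ` has the same component. -/
def Lifting (π σ : CRep GAd) : Prop :=
  Isobaric σ ∧ ∀ p, ∀ a : IrrRep (val0 p), Unram (val0 p) a.rep → Comp p π a.rep →
    Comp p σ a.rep

/-- `l` is a local lifting at the place `p` which is compatible with the global liftings. -/
def CompatibleLift (p : P0) (l : IrrRep (val0 p) → IrrRep (val0 p)) : Prop :=
  (∀ a b, Iso a.rep b.rep → Iso (l a).rep (l b).rep) ∧
  ∀ π σ : CRep GAd, Automorphic π → Lifting π σ →
    ∀ a b : IrrRep (val0 p), Comp p π a.rep → Comp p σ b.rep → Iso b.rep (l a).rep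

/-! ### Translation of the results of the project files -/

lemma eq_loc {p : P0} {g : GAd} (hg : AtPlace p g) : g = loc val0 p (comp g p) := by
  refine GA_ext val0 fun q => ?_
  rcases eq_or_ne q p with rfl | hq
  · exact (loc_same val0 q (comp g q)).symm
  · exact (hg q hq).trans (loc_ne val0 hq (comp g p)).symm

lemma atPlace_loc (p : P0) (h : G2 (L0 p)) : AtPlace p (loc val0 p h) :=
  fun _ hq => loc_ne val0 hq h

lemma comp_iff {p : P0} {π : CRep GAd} {a : CRep (G2 (L0 p))} :
    Comp p π a ↔ Component val0 p π a := by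
  constructor
  · rintro ⟨T, hT, h⟩
    refine ⟨T, hT, fun g x => ?_⟩
    have := h (loc val0 p g) (atPlace_loc p g) x
    have e : comp (loc val0 p g) p = g := loc_same val0 p g
    simp only [e] at this
    exact this
  · rintro ⟨T, hT, h⟩
    refine ⟨T, hT, fun g hg x => ?_⟩
    refine (h (comp g p) x).trans ?_
    exact congrArg (fun k => π.ρ k (T x)) (eq_loc hg).symm

lemma finiteLength {p : P0} {φ : GAd → ℂ} (h : FinLen val0 p φ) : FiniteLength p φ := by
  obtain ⟨N, hN⟩ := h
  refine ⟨N, fun k W hW hi => hN k W hW fun i => ⟨fun g ψ hψ => ?_, fun ψ hψ => ?_⟩⟩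
  · exact (hi i).1 (loc val0 p g) (atPlace_loc p g) ψ hψ
  · have h1 := (hi i).2 hψ
    have h2 : {ψ | ∃ g, AtPlace p g ∧ rt g φ = ψ} ⊆
        Set.range fun g : G2 (L0 p) => RT val0 (loc val0 p g) φ := by
      rintro _ ⟨g, hg, rfl⟩
      exact ⟨comp g p, congrArg (fun k => RT val0 k φ) (eq_loc hg).symm⟩
    exact Submodule.span_mono (R := ℂ) (M := GAd → ℂ) h2 h1

lemma autForm {φ : GAd → ℂ} (h : AutForm val0 emb0 φ) : AutomorphicForm φ := by
  obtain ⟨h1, ⟨n, hn⟩, p, hp⟩ := h
  exact ⟨h1, ⟨n, fun u hu g => hn u hu g⟩, p, finiteLength hp⟩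

lemma subquotient {Q Q' : Fn → Prop} (hQ : ∀ φ, Q φ → Q' φ) {π : CRep GAd}
    (h : QuotOf val0 Q π) : Subquotient Q' π := by
  obtain ⟨W, hW, h1, T, hT, h2⟩ := h
  obtain ⟨S, hS⟩ := LinearMap.exists_extend T
  have h3 : ∀ φ (hφ : φ ∈ W), S φ = T ⟨φ, hφ⟩ := fun φ hφ => LinearMap.congr_fun hS ⟨φ, hφ⟩
  refine ⟨W, hW, fun φ hφ => hQ φ (h1 φ hφ), S, fun x => ?_, fun g φ hφ => ?_⟩
  · obtain ⟨φ, rfl⟩ := hT x
    exact ⟨φ.1, φ.2, h3 φ.1 φ.2⟩
  · refine (h3 _ (hW g φ hφ)).trans ((h2 g ⟨φ, hφ⟩).trans ?_)
    exact congrArg (π.ρ g) (h3 φ hφ).symm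

lemma automorphic {π : CRep GAd} (h : IsAutomorphic val0 emb0 π) : Automorphic π :=
  ⟨h.1, subquotient (fun _ => autForm) h.2⟩

lemma cuspidal {π : CRep GAd} (h : IsCuspidal val0 emb0 π) : Cuspidal π :=
  ⟨h.1, subquotient (fun _ hφ => ⟨autForm hφ.1, hφ.2⟩) h.2⟩

/-- translation of Hecke characters -/
def hecke (μ : HeckeChar val0 emb0) : Hecke := ⟨μ.χ, μ.smooth, μ.unram, μ.glob⟩

lemma isobaric {π : CRep GAd} (h : IsIsobaric val0 emb0 π) : Isobaric π := by
  rcases h with h | ⟨h1, h2, μ₁, μ₂, h3⟩
  · exact Or.inl (cuspidal h)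
  · refine Or.inr ⟨h1, fun x => ?_, hecke μ₁, hecke μ₂, fun p => ?_⟩
    · obtain ⟨n, hn⟩ := h2 x
      exact ⟨n, fun u hu => hn u hu⟩
    · obtain ⟨a, ha, hl⟩ := h3 p
      exact ⟨a, comp_iff.2 ha, hl⟩

lemma lifting {π σ : CRep GAd} (h : IsLifting val0 emb0 π σ) : Lifting π σ :=
  ⟨isobaric h.1, fun p a ha hc => comp_iff.2 (h.2 p a ha (comp_iff.1 hc))⟩

/-- **Disproof of Q1.** For `K = 𝔽₂(t)`, `G = GL₂` and `ρ` the identity there are an automorphic
representation `π₁` of `GL₂(𝔸)`, trivial at all places except `∞` and `(t)`, and a cuspidal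
representation `π₂` with the same component `a` at `∞`, such that the one-dimensional trivial
representation `σ₁` is a global lifting of `π₁`, `π₂` is a global lifting of `π₂`, and
the component `b` of `σ₁` at `∞` is not isomorphic to `a`.  Hence there is no map
`l : Irr(GL₂(K_∞)) → Irr(GL₂(K_∞))` compatible with the global liftings. -/
theorem result :
    (∃ (π₁ σ₁ π₂ : CRep GAd) (a b : IrrRep (val0 none)),
      Automorphic π₁ ∧
      (∀ p, p ≠ none → p ≠ some (Polynomial.idealX (ZMod 2)) →
        ∀ g, AtPlace p g → ∀ x, π₁.ρ g x = x) ∧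
      Lifting π₁ σ₁ ∧ Module.finrank ℂ σ₁.V = 1 ∧ (∀ g x, σ₁.ρ g x = x) ∧
      Automorphic π₂ ∧ Cuspidal π₂ ∧ Lifting π₂ π₂ ∧
      Comp none π₁ a.rep ∧ Comp none π₂ a.rep ∧ Comp none σ₁ b.rep ∧ ¬ Iso b.rep a.rep) ∧
    ¬ ∃ l : IrrRep (val0 none) → IrrRep (val0 none), CompatibleLift none l := by
  obtain ⟨π₁, σ₁, π₂, a, b, h1, h2, h3, ⟨h4, h5⟩, h6, h7, h8, h9, h10, h11, h12⟩ :=
    Pool.Agent.U283.LL.main
  have k1 := automorphic h1
  have k2 := lifting h2
  have k6 := comp_iff.2 h6
  have k7 := comp_iff.2 h7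
  have k8 := automorphic h8
  have k10 := lifting h10
  have k11 := comp_iff.2 h11
  refine ⟨⟨π₁, σ₁, π₂, a, b, k1, fun p hp hp' g hg x => ?_, k2, h4, h5, k8, cuspidal h9, k10,
    k6, k11, k7, h12⟩, ?_⟩
  · refine Eq.trans ?_ (h3 p hp hp' (comp g p) x)
    exact congrArg (fun k => π₁.ρ k x) (eq_loc hg)
  · rintro ⟨l, -, hl⟩
    obtain ⟨e1, he1⟩ := hl π₁ σ₁ k1 k2 a b k6 k7
    obtain ⟨e2, he2⟩ := hl π₂ π₂ k8 k10 a a k11 k11
    exact h12 ⟨e1.trans e2.symm, fun g x => by
      apply e2.injective
      rw [LinearEquiv.trans_apply, LinearEquiv.trans_apply, he2, LinearEquiv.apply_symm_apply,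
        LinearEquiv.apply_symm_apply, he1]⟩

end

end Pool.Agent.Results.MP_5ae62c_nt.NoLocalLifting
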